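import Pool.Agent.Lib.MP_c28bf6_an.Convert

/-!
# Close encounters of choreographies
-/

set_option autoImplicit false

open Finset

namespace Pool.Agent.Lib.MP_c28bf6_an.CE

variable {E : Type*} [NormedAddCommGroup E] [InnerProductSpace ℝ E]

/-- all shifts -/
lemma shift_nat {n : ℕ} [NeZero n] {μ : ZMod n → ℝ} {w : ZMod n → ℝ} (hw : w ∈ Core.W n μ)
    (r : ZMod n) : (fun j => w (j + r)) ∈ Core.W n μ := Core.W_shift hw r

/-- The basic identity. -/
lemma ident {n : ℕ} [NeZero n] {μ : ZMod n → ℝ} {X : ZMod n → ℝ → E} {τ : ℝ}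
    (h : Core n μ X τ) {w : ZMod n → ℝ} (hw : w ∈ Core.W n μ) (t : ℝ) (a : ZMod n) (c : ℝ) (e : E) :
    ∑ j, w j * (((‖X j t - X a t‖ ^ 3)⁻¹ - c) * inner ℝ (X j t - X a t) e) = 0 := by
  have h1 := h.equil_W hw t a
  have h2 := h.dipole_W hw t
  have h3 := Core.sum_W hw
  have h4 : ∑ j, w j • (X j t - X a t) = 0 := by
    simp only [smul_sub, Finset.sum_sub_distrib, h2, ← Finset.sum_smul, h3, zero_smul, sub_zero]
  have h5 : ∑ j, (w j * ((‖X j t - X a t‖ ^ 3)⁻¹ - c)) • (X j t - X a t) = 0 := by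
    have h6 : ∀ j, (w j * ((‖X j t - X a t‖ ^ 3)⁻¹ - c)) • (X j t - X a t) =
        w j • force (X j t - X a t) - c • (w j • (X j t - X a t)) := by
      intro j
      rw [force, smul_smul, smul_smul, ← sub_smul]
      congr 1
      ring
    rw [Finset.sum_congr rfl fun j _ => h6 j, Finset.sum_sub_distrib, h1, ← Finset.smul_sum, h4,
      smul_zero, sub_zero]
  have h7 : inner ℝ (∑ j, (w j * ((‖X j t - X a t‖ ^ 3)⁻¹ - c)) • (X j t - X a t)) e = 0 := by
    rw [h5, inner_zero_left]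
  rw [sum_inner] at h7
  rw [← h7]
  refine Finset.sum_congr rfl fun j _ => ?_
  rw [real_inner_smul_left]
  ring

/-- **One dominating body.** -/
theorem core_dom {n : ℕ} [NeZero n] {μ : ZMod n → ℝ} {X : ZMod n → ℝ → E} {τ : ℝ}
    (h : Core n μ X τ) (t : ℝ) (a b : ZMod n) (c : ℝ) (e : E) (hab : a ≠ b)
    (hdom : ∑ j ∈ (univ.erase a).erase b,
        |((‖X j t - X a t‖ ^ 3)⁻¹ - c) * inner ℝ (X j t - X a t) e| <
      |((‖X b t - X a t‖ ^ 3)⁻¹ - c) * inner ℝ (X b t - X a t) e|) :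
    ∀ w ∈ Core.W n μ, w = 0 := by
  intro w hw
  by_contra hne
  -- the largest entry
  obtain ⟨b', _, hb'⟩ := Finset.exists_max_image univ (fun j => |w j|) ⟨a, mem_univ a⟩
  have hpos : 0 < |w b'| := by
    obtain ⟨j, hj⟩ : ∃ j, w j ≠ 0 := by
      by_contra hall
      push Not at hall
      exact hne (funext hall)
    exact lt_of_lt_of_le (abs_pos.2 hj) (hb' j (mem_univ j))
  set v : ZMod n → ℝ := fun j => w (j + (b' - b)) with hv
  have hvW : v ∈ Core.W n μ := shift_nat hw (b' - b)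
  have hvb : v b = w b' := by simp [hv]
  have hvle : ∀ j, |v j| ≤ |w b'| := fun j => hb' _ (mem_univ _)
  have hid := ident h hvW t a c e
  set f : ZMod n → ℝ := fun j => ((‖X j t - X a t‖ ^ 3)⁻¹ - c) * inner ℝ (X j t - X a t) e with hf
  have hfa : f a = 0 := by simp [hf]
  have h1 : v b * f b = - ∑ j ∈ (univ.erase a).erase b, v j * f j := by
    have e1 : ∑ j, v j * f j = v a * f a + ∑ j ∈ univ.erase a, v j * f j :=
      (Finset.add_sum_erase _ _ (mem_univ a)).symm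
    have e2 : ∑ j ∈ univ.erase a, v j * f j =
        v b * f b + ∑ j ∈ (univ.erase a).erase b, v j * f j :=
      (Finset.add_sum_erase _ _ (by simp [hab.symm])).symm
    rw [e1, e2, hfa, mul_zero, zero_add] at hid
    linarith
  have h2 : |v b * f b| ≤ |w b'| * ∑ j ∈ (univ.erase a).erase b, |f j| := by
    rw [h1, abs_neg, Finset.mul_sum]
    refine (Finset.abs_sum_le_sum_abs _ _).trans (Finset.sum_le_sum fun j _ => ?_)
    rw [abs_mul]
    exact mul_le_mul_of_nonneg_right (hvle j) (abs_nonneg _)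
  rw [abs_mul, hvb] at h2
  have h3 : |f b| ≤ ∑ j ∈ (univ.erase a).erase b, |f j| := le_of_mul_le_mul_left h2 hpos
  exact absurd hdom (not_lt.2 h3)

/-- **The close encounter theorem.** -/
theorem final {n : ℕ} {m : Fin n → ℝ} {x : ℝ → E} {T : ℝ} (h : IsChoreography n m x T) (t : ℝ)
    (a b : Fin n) (hab : a ≠ b) (c : ℝ) (e : E)
    (hdom : ∑ j ∈ (univ.erase a).erase b,
        |((‖body n x T j t - body n x T a t‖ ^ 3)⁻¹ - c) *
          inner ℝ (body n x T j t - body n x T a t) e| <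
      |((‖body n x T b t - body n x T a t‖ ^ 3)⁻¹ - c) *
          inner ℝ (body n x T b t - body n x T a t) e|)
    (i j : Fin n) : m i = m j := by
  obtain _ | k := n
  · exact i.elim0
  · have hall := core_dom h.core t (a : ZMod (k + 1)) (b : ZMod (k + 1)) c e hab hdom
    have key : ∀ a b : ZMod (k + 1), m a = m b := by
      intro a b
      have h3 := hall _ (Core.diff_mem (μ := fun j : ZMod (k + 1) => m j) (a - b))
      have h4 := congrFun h3 b
      simp only [Pi.zero_apply] at h4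
      have h5 : b + (a - b) = a := by ring
      rw [h5] at h4
      linarith
    exact key i j

/-- Close encounters: the norm version. -/
theorem close {n : ℕ} {m : Fin n → ℝ} {x : ℝ → E} {T : ℝ} (h : IsChoreography n m x T) (t : ℝ)
    (a b : Fin n) (hab : a ≠ b)
    (hdom : ∑ j ∈ (univ.erase a).erase b, (‖body n x T j t - body n x T a t‖ ^ 2)⁻¹ <
      (‖body n x T b t - body n x T a t‖ ^ 2)⁻¹)
    (i j : Fin n) : m i = m j := by
  set d : Fin n → E := fun j => body n x T j t - body n x T a t with hd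
  have hdb : d b ≠ 0 := sub_ne_zero.2 (h.no_collision t b a hab.symm)
  have hnb : 0 < ‖d b‖ := norm_pos_iff.2 hdb
  refine final h t a b hab 0 ((‖d b‖)⁻¹ • d b) ?_ i j
  have key : ∀ j, ‖d j‖ ≠ 0 → |((‖d j‖ ^ 3)⁻¹ - 0) * inner ℝ (d j) ((‖d b‖)⁻¹ • d b)| ≤
      (‖d j‖ ^ 2)⁻¹ := by
    intro j hj
    have hj' : 0 < ‖d j‖ := lt_of_le_of_ne (norm_nonneg _) (Ne.symm hj)
    rw [sub_zero, abs_mul, abs_of_pos (inv_pos.2 (pow_pos hj' 3))]
    have h1 : |inner ℝ (d j) ((‖d b‖)⁻¹ • d b)| ≤ ‖d j‖ := by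
      refine (abs_real_inner_le_norm _ _).trans ?_
      rw [norm_smul, norm_inv, norm_norm, inv_mul_cancel₀ hnb.ne', mul_one]
    calc (‖d j‖ ^ 3)⁻¹ * |inner ℝ (d j) ((‖d b‖)⁻¹ • d b)| ≤ (‖d j‖ ^ 3)⁻¹ * ‖d j‖ :=
          mul_le_mul_of_nonneg_left h1 (inv_nonneg.2 (pow_nonneg hj'.le 3))
      _ = (‖d j‖ ^ 2)⁻¹ := by field_simp
  have hb : |((‖d b‖ ^ 3)⁻¹ - 0) * inner ℝ (d b) ((‖d b‖)⁻¹ • d b)| = (‖d b‖ ^ 2)⁻¹ := by
    rw [sub_zero, real_inner_smul_right, real_inner_self_eq_norm_sq]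
    rw [abs_of_nonneg (by positivity)]
    field_simp
  show ∑ j ∈ (univ.erase a).erase b, |((‖d j‖ ^ 3)⁻¹ - 0) * inner ℝ (d j) ((‖d b‖)⁻¹ • d b)| <
    |((‖d b‖ ^ 3)⁻¹ - 0) * inner ℝ (d b) ((‖d b‖)⁻¹ • d b)|
  rw [hb]
  refine lt_of_le_of_lt (Finset.sum_le_sum fun j hj => ?_) hdom
  have hja : j ≠ a := by
    simp only [mem_erase, mem_univ, and_true] at hj
    exact hj.2
  exact key j (norm_ne_zero_iff.2 (sub_ne_zero.2 (h.no_collision t j a hja)))

end Pool.Agent.Lib.MP_c28bf6_an.CE
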